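import Pool.Agent.Y835.ES.Main
import Pool.Agent.Results.MP_e85eb4_nt.KappaTwoRat

/-!
# Eventual stability: no uniform bound, also in prime power degrees

Let `κ(d, K)` be a bound for the number of irreducible factors over `K` of the numerators of
`f^n(x) - α`, for all `f` of degree `d` over the number field `K` and all wandering `α` without
preimage in `P^1(K)`.  Power maps show that there is none if `d` has two different prime factors (the
starting file `NoUniformBound`).  This argument says nothing about prime powers `d`.

Here a second source of unbounded factorizations is found: Lattès maps with complex multiplication.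
The endomorphisms `w = (1 + √-7) / 2` and `1 - w` of the curve `y² = x³ - 35 x + 98` have degree two;
their Lattès maps `g` and `h` commute, so for `f = g h^(m-1)` of degree `2^m`, `m ≥ 2`, the iterate
`f^k(x) - h^k(β)` splits off the factors belonging to `h^j(y) - h^j(β)`, `j ≤ k`.  A point `α` has a
preimage under `g` over `K` only if `D(α) = (α + 7) (α - 4 + w)` is a square in `K`, and the class of
`D(h(x))` modulo squares is the class of `D(x)`; a value `β` with `D(β)` of odd valuation at a place
above `3` and large at a place above `2` gives points `α = h^k(β)` which are wandering and have no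
preimage.

So there is no `κ(d, K)` for `d = 4, 8, 16, …` if `K` contains `√-7`.  Together with the power maps, for
every `d ≥ 4` that is not a power of an odd prime there is a number field (of degree at most two)
without a uniform bound.
-/

set_option autoImplicit false

open Polynomial

namespace Pool.Agent.Results.MP_e85eb4_nt.PrimePowerDegrees

variable {K : Type} [Field K]

/-- The degree of a rational function over `K`: the larger of the degrees of its coprime
numerator and denominator. -/
noncomputable def ratDegree (f : RatFunc K) : ℕ :=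
  max f.num.natDegree f.denom.natDegree

/-- The self-map of the projective line `P^1(K) = K ∪ {∞}` defined by a rational function. -/
noncomputable def toMap (f : RatFunc K) : OnePoint K → OnePoint K
  | none =>
      if f.denom.natDegree < f.num.natDegree then OnePoint.infty
      else ((f.num.coeff f.denom.natDegree / f.denom.leadingCoeff : K) : OnePoint K)
  | some x =>
      open Classical in
      if f.denom.eval x = 0 then OnePoint.infty
      else ((f.num.eval x / f.denom.eval x : K) : OnePoint K)

/-- The `n`-th iterate `f ∘ ⋯ ∘ f` of a rational function, as a rational function. -/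
noncomputable def iter (f : RatFunc K) : ℕ → RatFunc K
  | 0 => RatFunc.X
  | n + 1 => RatFunc.eval RatFunc.C (iter f n) f

/-- `α` is wandering for `f`: its forward orbit in `P^1(K)` is infinite. -/
def Wandering (f : RatFunc K) (α : K) : Prop :=
  (Set.range fun n : ℕ => (toMap f)^[n] (α : OnePoint K)).Infinite

/-- `Ω_K(h)`: the number of irreducible factors of `h` in `K[x]`, counted with multiplicity. -/
noncomputable def Omega (h : K[X]) : ℕ :=
  Multiset.card (UniqueFactorizationMonoid.factors h)

/-- `κ` is an admissible value of `κ(d, K)`: for every rational function `f` of degree `d` over `K`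
and every `α ∈ K` wandering for `f` with no preimage in `P^1(K)`, the numerator of `f^n(x) - α`
has at most `κ` irreducible factors, for all `n ≥ 1`. -/
def Admissible (d : ℕ) (K : Type) [Field K] (κ : ℕ) : Prop :=
  ∀ f : RatFunc K, ratDegree f = d → ∀ α : K, Wandering f α →
    (∀ x : OnePoint K, toMap f x ≠ (α : OnePoint K)) →
    ∀ n : ℕ, 1 ≤ n →
      Omega ((iter f n).num - Polynomial.C α * (iter f n).denom) ≤ κ

lemma iter_eq1 (f : RatFunc K) (n : ℕ) : iter f n = NoUniformBound.iter f n := by
  induction n with
  | zero => rfl
  | succ n ih => rw [iter, NoUniformBound.iter, ih]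

lemma iter_eq2 (f : RatFunc K) (n : ℕ) : iter f n = KappaTwoRat.iter f n := by
  induction n with
  | zero => rfl
  | succ n ih => rw [iter, KappaTwoRat.iter, ih]

lemma toMap_eq1 (f : RatFunc K) : toMap f = NoUniformBound.toMap f := by
  funext x
  cases x <;> rfl

lemma toMap_eq2 (f : RatFunc K) : toMap f = KappaTwoRat.toMap f := by
  funext x
  cases x <;> rfl

lemma adm1 {d κ : ℕ} (h : Admissible d K κ) : NoUniformBound.Admissible d K κ := by
  intro f hf α hα hx n hn
  have h1 := h f hf α (by rw [Wandering, toMap_eq1]; exact hα) (by rw [toMap_eq1]; exact hx) n hn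
  rw [iter_eq1] at h1
  exact h1

lemma adm2 {d κ : ℕ} (h : Admissible d K κ) : KappaTwoRat.Admissible d K κ := by
  intro f hf α hα hx n hn
  have h1 := h f hf α (by rw [Wandering, toMap_eq2]; exact hα) (by rw [toMap_eq2]; exact hx) n hn
  rw [iter_eq2] at h1
  exact h1

/-- **No uniform bound.**

(1) If `K` is a number field which contains a square root of `-7`, then for `d = 4, 8, 16, …` there is
no uniform bound `κ(d, K)`.

(2) If `d ≥ 2` is not a prime power, there is no uniform bound `κ(d, K)` for any number field `K`.

(3) In particular, for every `d ≥ 2` that is neither `2` nor a power of an odd prime there is a number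
field `K` without a uniform bound `κ(d, K)`.

(4) For `d = 2` and `K = ℚ` every admissible `κ` is at least `5`. -/
theorem result :
    (∀ (K : Type) [Field K] [NumberField K], (∃ s : K, s ^ 2 = -7) → ∀ m : ℕ, 2 ≤ m →
      ∀ κ : ℕ, ¬ Admissible (2 ^ m) K κ) ∧
    (∀ (K : Type) [Field K] [NumberField K] (d : ℕ), 2 ≤ d → ¬ IsPrimePow d →
      ∀ κ : ℕ, ¬ Admissible d K κ) ∧
    (∀ d : ℕ, 2 ≤ d → d ≠ 2 → (∀ p k : ℕ, p.Prime → p ≠ 2 → d ≠ p ^ k) →
      ∃ (K : Type) (_ : Field K) (_ : NumberField K), ∀ κ : ℕ, ¬ Admissible d K κ) ∧
    (∀ κ : ℕ, Admissible 2 ℚ κ → 5 ≤ κ) := by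
  have h1 : ∀ (K : Type) [Field K] [NumberField K], (∃ s : K, s ^ 2 = -7) → ∀ m : ℕ, 2 ≤ m →
      ∀ κ : ℕ, ¬ Admissible (2 ^ m) K κ := by
    intro K _ _ hs m hm κ h
    obtain ⟨s, hs⟩ := hs
    exact Pool.Agent.Y835.ES.main_nf K s hs hm κ (adm1 h)
  have h2 : ∀ (K : Type) [Field K] [NumberField K] (d : ℕ), 2 ≤ d → ¬ IsPrimePow d →
      ∀ κ : ℕ, ¬ Admissible d K κ := by
    intro K _ _ d hd hpp κ h
    exact NoUniformBound.result K d hd hpp κ (adm1 h)
  refine ⟨h1, h2, ?_, ?_⟩
  · intro d hd hd2 hp
    by_cases hpp : IsPrimePow d
    · obtain ⟨p, k, hpr, hk, hpk⟩ := (isPrimePow_nat_iff d).1 hpp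
      have hp2 : p = 2 := by
        by_contra hne
        exact hp p k hpr hne hpk.symm
      subst hp2
      have hk2 : 2 ≤ k := by
        rcases Nat.lt_or_ge k 2 with h | h
        · have : k = 1 := by omega
          rw [this, pow_one] at hpk
          exact absurd hpk.symm hd2
        · exact h
      obtain ⟨F, x, hx⟩ : ∃ (F : IntermediateField ℚ (AlgebraicClosure ℚ)) (x : F), x ^ 2 = -7 ∧
          FiniteDimensional ℚ F := by
        obtain ⟨z, hz⟩ := IsAlgClosed.exists_pow_nat_eq (-7 : AlgebraicClosure ℚ)
          (show 0 < 2 by norm_num)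
        have hzi : IsIntegral ℚ z := by
          refine IsIntegral.of_pow (n := 2) (by norm_num) ?_
          rw [hz]
          have h7 := isIntegral_algebraMap (R := ℚ) (A := AlgebraicClosure ℚ) (x := (-7 : ℚ))
          simpa using h7
        refine ⟨IntermediateField.adjoin ℚ {z}, ⟨z, IntermediateField.mem_adjoin_simple_self ℚ z⟩,
          ?_, ?_⟩
        · apply Subtype.ext
          push_cast
          exact hz
        · exact IntermediateField.adjoin.finiteDimensional hzi
      have := hx.2
      have : NumberField F := { to_charZero := inferInstance, to_finiteDimensional := hx.2 }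
      refine ⟨F, inferInstance, inferInstance, ?_⟩
      intro κ
      rw [← hpk]
      exact h1 F ⟨x, hx.1⟩ k hk2 κ
    · exact ⟨ℚ, inferInstance, inferInstance, fun κ => h2 ℚ d hd hpp κ⟩
  · intro κ h
    exact KappaTwoRat.result κ (adm2 h)

end Pool.Agent.Results.MP_e85eb4_nt.PrimePowerDegrees
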